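import Pool.Agent.Work.MP_72250f_ag.F5

open scoped Manifold ContDiff
open BallLattice

/-- In large dimension every smooth model of a ball quotient by a lattice is of general type. -/
theorem Pool.Agent.Results.MP_72250f_ag.GeneralType.result.{u} :
    ∃ N : ℕ, ∀ n : ℕ, N ≤ n → ∀ Γ : Subgroup (PU n), IsLattice Γ →
      ∀ (Y : Type u) [TopologicalSpace Y] [ChartedSpace (E n) Y] [IsManifold 𝓘(ℂ, E n) ω Y]
        (Z : Set Y) (Ω : Set (E n)) (ψ : E n → Y),
        Thin n Z → QuotIso Γ Ω ψ Zᶜ → GeneralType n Y :=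
  BallQ.generalType_main
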