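import Pool.Agent.Work.MP_72250f_ag.F5

open BallLattice

/-- In large dimension no ball quotient by a lattice is rational. -/
theorem Pool.Agent.Results.MP_72250f_ag.NotRational.result :
    ∃ N : ℕ, ∀ n : ℕ, N ≤ n → ∀ Γ : Subgroup (PU n), IsLattice Γ →
      ¬ ∃ (P : MvPolynomial (Fin n) ℂ) (Ω : Set (E n)) (ψ : E n → E n), P ≠ 0 ∧
        @QuotIso n (E n) _ (chartedSpaceSelf (E n)) Γ Ω ψ
          {x | MvPolynomial.eval (fun i => x i) P ≠ 0} :=
  BallQ.notRational_main
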